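import Mathlib
import Pool.Agent.Lib.helper9.Chordal

set_option autoImplicit false

namespace Pool.Agent.H.MP_77abd0_co

open SimpleGraph Finset

variable {V : Type} [Fintype V] [DecidableEq V] (G : SimpleGraph V) [DecidableRel G.Adj]

/-- later neighbours -/
def ln (ρ : V → ℕ) (v : V) : Finset V := univ.filter fun u => G.Adj v u ∧ ρ v < ρ u

theorem mem_ln (ρ : V → ℕ) (v u : V) : u ∈ ln G ρ v ↔ G.Adj v u ∧ ρ v < ρ u := by simp [ln]

theorem sumc (ρ : V → ℕ) (hρ : Function.Injective ρ)
    (hp : ∀ x a b, G.Adj x a → G.Adj x b → ρ x < ρ a → ρ x < ρ b → a ≠ b → G.Adj a b)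
    (z : ℂ) (U : Finset V) :
    ∑ s ∈ U.powerset.filter (fun s : Finset V => G.IsClique (s : Set V)), z ^ s.card =
      1 + z * ∑ v ∈ U, (1 + z) ^ (ln G ρ v ∩ U).card := by
  induction U using Finset.induction_on_min_value ρ with
  | empty => simp [Finset.filter_singleton]
  | insert a s ha hm ih =>
    have lt : ∀ x ∈ s, ρ a < ρ x := fun x hx =>
      lt_of_le_of_ne (hm x hx) fun e => ha (hρ e ▸ hx)
    rw [sum_filter, sum_powerset_insert ha, ← sum_filter, ih, sum_insert ha]
    have e1 : ∀ v ∈ s, ln G ρ v ∩ insert a s = ln G ρ v ∩ s := by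
      intro v hv
      apply inter_insert_of_notMem
      rw [mem_ln]
      have := lt v hv
      omega
    have e2 : ln G ρ a ∩ insert a s = ln G ρ a ∩ s := by
      apply inter_insert_of_notMem
      rw [mem_ln]
      omega
    rw [sum_congr rfl fun v hv => congrArg (fun t : Finset V => (1 + z) ^ t.card) (e1 v hv), e2]
    have e3 : (∑ t ∈ s.powerset, if G.IsClique ((insert a t : Finset V) : Set V) then
        z ^ (insert a t).card else 0) = z * (1 + z) ^ (ln G ρ a ∩ s).card := by
      rw [← prod_const, prod_one_add, mul_sum, ← sum_filter]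
      refine sum_congr ?_ fun t ht => ?_
      · ext t
        simp only [mem_filter, mem_powerset, coe_insert, subset_inter_iff]
        constructor
        · rintro ⟨h1, h2⟩
          refine ⟨fun x hx => (mem_ln G ρ a x).2 ⟨?_, lt x (h1 hx)⟩, h1⟩
          exact h2 (Set.mem_insert _ _) (Set.mem_insert_of_mem _ hx) fun e => ha (e ▸ h1 hx)
        · rintro ⟨h1, h2⟩
          refine ⟨h2, ?_⟩
          rintro x (rfl | hx) y (rfl | hy) hxy
          · exact absurd rfl hxy
          · exact ((mem_ln G ρ _ _).1 (h1 hy)).1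
          · exact ((mem_ln G ρ _ _).1 (h1 hx)).1.symm
          · obtain ⟨p1, p2⟩ := (mem_ln G ρ _ _).1 (h1 hx)
            obtain ⟨q1, q2⟩ := (mem_ln G ρ _ _).1 (h1 hy)
            exact hp a x y p1 q1 p2 q2 hxy
      · have : a ∉ t := fun h => ha (mem_inter.1 (mem_powerset.1 ht h)).2
        rw [card_insert_of_notMem this, prod_const, pow_succ']
    rw [e3]
    ring

theorem sep (ρ : V → ℕ) (hρ : Function.Injective ρ)
    (hp : ∀ x a b, G.Adj x a → G.Adj x b → ρ x < ρ a → ρ x < ρ b → a ≠ b → G.Adj a b)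
    (v u : V) (hl : ρ v < ρ u) (hn : ¬ G.Adj v u) :
    ¬ (G.induce ((ln G ρ v : Set V)ᶜ)).Connected := by
  intro hc
  let r : V → V → Prop := fun a b => G.Adj a b ∧ ρ a < ρ b
  have c1 : ∀ x, Relation.ReflTransGen r x v → ∀ y, G.Adj x y → ρ x < ρ y →
      Relation.ReflTransGen r y v ∨ y ∈ ln G ρ v := by
    intro x hx
    induction hx using Relation.ReflTransGen.head_induction_on with
    | refl => intro y h1 h2; exact Or.inr ((mem_ln G ρ _ _).2 ⟨h1, h2⟩)
    | @head x x' h1 h2 ih =>
      intro y p1 p2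
      by_cases e : x' = y
      · exact Or.inl (e ▸ h2)
      have a := hp x x' y h1.1 p1 h1.2 p2 e
      rcases lt_trichotomy (ρ x') (ρ y) with h | h | h
      · exact ih y a h
      · exact absurd (hρ h) e
      · exact Or.inl (Relation.ReflTransGen.head ⟨a.symm, h⟩ h2)
  have c2 : ∀ x, Relation.ReflTransGen r x v → ρ x ≤ ρ v := by
    intro x hx
    induction hx using Relation.ReflTransGen.head_induction_on with
    | refl => exact le_rfl
    | head h1 _ ih => exact h1.2.le.trans ih
  have hv : v ∈ (ln G ρ v : Set V)ᶜ := by simp [mem_ln]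
  have hu : u ∈ (ln G ρ v : Set V)ᶜ := by simp [mem_ln, hn]
  have c3 : ∀ (a b : ((ln G ρ v : Set V)ᶜ : Set V)) (w : (G.induce _).Walk a b),
      Relation.ReflTransGen r a.1 v → Relation.ReflTransGen r b.1 v := by
    intro a b w
    induction w with
    | nil => exact id
    | @cons x y _ h _ ih =>
      intro hx
      apply ih
      have h' : G.Adj x.1 y.1 := h
      rcases lt_trichotomy (ρ x.1) (ρ y.1) with l | l | l
      · exact (c1 _ hx _ h' l).resolve_right y.2
      · exact absurd (hρ l) h'.ne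
      · exact Relation.ReflTransGen.head ⟨h'.symm, l⟩ hx
  obtain ⟨w⟩ := hc.preconnected ⟨v, hv⟩ ⟨u, hu⟩
  have := c2 u (c3 _ _ w Relation.ReflTransGen.refl)
  omega

theorem upper (ρ : V → ℕ) (hρ : Function.Injective ρ) (m : ℕ) (hm : m ≤ Fintype.card V) :
    ∃ A : Finset V, A.card = m ∧ ∀ a ∈ A, ∀ v, v ∉ A → ρ v < ρ a := by
  induction m with
  | zero => exact ⟨∅, rfl, by simp⟩
  | succ m ih =>
    obtain ⟨A, h1, h2⟩ := ih (by omega)
    have : (Aᶜ).Nonempty := by
      rw [← card_pos, card_compl]; omega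
    obtain ⟨x, hx, hmx⟩ := exists_max_image _ ρ this
    refine ⟨insert x A, by rw [card_insert_of_notMem (mem_compl.1 hx), h1], ?_⟩
    intro a ha v hv
    rw [mem_insert, not_or] at hv
    rcases mem_insert.1 ha with rfl | ha
    · exact lt_of_le_of_ne (hmx v (mem_compl.2 hv.2)) fun e => hv.1 (hρ e)
    · exact h2 a ha v hv.2

theorem quad (a b : ℕ) (z : ℂ) (h : 1 + z + a * z + b * z * (1 + z) = 0) : z.im = 0 := by
  by_contra hy
  have h1 := congrArg Complex.re h
  have h2 := congrArg Complex.im h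
  simp at h1 h2
  have ha : (0 : ℝ) ≤ a := Nat.cast_nonneg a
  have hb : (0 : ℝ) ≤ b := Nat.cast_nonneg b
  set x := z.re
  set y := z.im
  have h3 : 1 + a + b + 2 * b * x = 0 := by
    apply mul_left_cancel₀ hy
    linarith
  have hy2 : 0 < y ^ 2 := by positivity
  have hb0 : (0 : ℝ) < b := by
    rcases hb.eq_or_lt with e | e
    · rw [← e] at h3; linarith
    · exact e
  have h4 : 4 * b * (1 + x + a * x + (b * x * (1 + x) - b * y * y)) =
      4 * b - (1 + a + b) ^ 2 - 4 * b ^ 2 * y ^ 2 := by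
    linear_combination (1 + a + b + 2 * b * x) * h3
  rw [h1] at h4
  nlinarith [sq_nonneg (1 - (b : ℝ)), mul_pos (mul_pos hb0 hb0) hy2, mul_nonneg ha hb]

theorem main (l : ℕ) (hG : ∀ n, 4 ≤ n → IsEmpty (cycleGraph n ↪g G))
    (hn : l + 1 ≤ Fintype.card V)
    (hc : ∀ S : Finset V, S.card < l → (G.induce ((S : Set V)ᶜ)).Connected)
    (hK : G.CliqueFree (l + 3)) (z : ℂ)
    (hz : ∑ s ∈ univ.filter (fun s : Finset V => G.IsClique (s : Set V)), z ^ s.card = 0) :
    z.im = 0 := by
  obtain ⟨ρ, hρ, hp⟩ := Pool.Agent.Lib.helper9.Chordal.peo G hG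
  obtain ⟨A, hA, hup⟩ := upper ρ hρ (l + 1) hn
  have big : ∀ v u, ρ v < ρ u → ¬ G.Adj v u → l ≤ (ln G ρ v).card := by
    intro v u h1 h2
    by_contra h
    exact sep G ρ hρ hp v u h1 h2 (hc _ (by omega))
  have sub : ∀ a ∈ A, ln G ρ a ⊆ A := by
    intro a ha x hx
    by_contra h
    have := hup a ha x h
    have := ((mem_ln G ρ a x).1 hx).2
    omega
  have cl : ∀ a ∈ A, ∀ b ∈ A, ρ a < ρ b → G.Adj a b := by
    intro a ha b hb h
    by_contra hab
    have h1 := big a b h hab
    have hne : b ≠ a := fun e => by rw [e] at h; omega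
    have h2 : ln G ρ a ⊆ (A.erase a).erase b := by
      intro x hx
      obtain ⟨p, q⟩ := (mem_ln G ρ a x).1 hx
      exact mem_erase.2 ⟨fun e => hab (e ▸ p), mem_erase.2 ⟨p.ne.symm, sub a ha hx⟩⟩
    have h3 := card_le_card h2
    have h4 := card_erase_add_one (mem_erase.2 ⟨hne, hb⟩)
    have h5 := card_erase_add_one ha
    omega
  have clA : G.IsClique (A : Set V) := by
    intro a ha b hb hab
    rcases lt_trichotomy (ρ a) (ρ b) with h | h | h
    · exact cl a ha b hb h
    · exact absurd (hρ h) hab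
    · exact (cl b hb a ha h).symm
  have deg : ∀ v ∈ Aᶜ, (ln G ρ v).card = l ∨ (ln G ρ v).card = l + 1 := by
    intro v hv
    have h1 : l ≤ (ln G ρ v).card := by
      by_cases h : A ⊆ ln G ρ v
      · have := card_le_card h; omega
      · obtain ⟨a, ha, ha'⟩ := not_subset.1 h
        have := hup a ha v (mem_compl.1 hv)
        exact big v a this fun e => ha' ((mem_ln G ρ v a).2 ⟨e, this⟩)
    have h2 : (ln G ρ v).card < l + 2 := by
      by_contra h
      obtain ⟨t, ht, htc⟩ := exists_subset_card_eq (not_lt.1 h)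
      have hv' : v ∉ t := fun e => by have := ((mem_ln G ρ v v).1 (ht e)).2; omega
      refine hK (insert v t) ⟨?_, by rw [card_insert_of_notMem hv', htc]⟩
      rw [coe_insert]
      rintro x (rfl | hx) y (rfl | hy) hxy
      · exact absurd rfl hxy
      · exact ((mem_ln G ρ _ _).1 (ht hy)).1
      · exact ((mem_ln G ρ _ _).1 (ht hx)).1.symm
      · obtain ⟨p1, p2⟩ := (mem_ln G ρ _ _).1 (ht hx)
        obtain ⟨q1, q2⟩ := (mem_ln G ρ _ _).1 (ht hy)
        exact hp v x y p1 q1 p2 q2 hxy
    omega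
  have s1 := sumc G ρ hρ hp z univ
  have s2 := sumc G ρ hρ hp z A
  rw [powerset_univ, hz] at s1
  simp only [inter_univ] at s1
  rw [filter_true_of_mem fun s hs => clA.subset (coe_subset.2 (mem_powerset.1 hs)),
    sum_congr rfl fun v hv => congrArg (fun t : Finset V => (1 + z) ^ t.card)
      (inter_eq_left.2 (sub v hv))] at s2
  have s3 : ∑ s ∈ A.powerset, z ^ s.card = (1 + z) ^ (l + 1) := by
    rw [← hA, ← prod_const, prod_one_add]
    simp
  rw [← sum_add_sum_compl A, mul_add, ← add_assoc, ← s2, s3,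
    ← sum_filter_add_sum_filter_not Aᶜ fun v => (ln G ρ v).card = l] at s1
  rw [sum_congr rfl fun v hv => congrArg (fun t : ℕ => (1 + z) ^ t) (mem_filter.1 hv).2,
    sum_congr rfl fun v hv => congrArg (fun t : ℕ => (1 + z) ^ t)
      ((deg v (mem_filter.1 hv).1).resolve_left (mem_filter.1 hv).2), sum_const, sum_const,
    nsmul_eq_mul, nsmul_eq_mul] at s1
  generalize (filter (fun v => (ln G ρ v).card = l) Aᶜ).card = a at s1
  generalize (filter (fun v => ¬ (ln G ρ v).card = l) Aᶜ).card = b at s1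
  have s4 : (1 + z) ^ l * (1 + z + a * z + b * z * (1 + z)) = 0 := by
    rw [s1]; ring
  rcases mul_eq_zero.1 s4 with h | h
  · have := congrArg Complex.im (eq_zero_of_pow_eq_zero h)
    simpa using this
  · exact quad a b z h

end Pool.Agent.H.MP_77abd0_co
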